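import Pool.Agent.Lib.HYP.Def
import Pool.Agent.Lib.BSDP.C.Cong

/-!
MP_950c68_ag, genus `g`, block S (the sieve, section 2 of the paper). The polynomials of the family
without the condition of regularity: their number is `q ^ (m (n ^ 2 + n - 2))`, `n = 2 g + 1`.
-/

set_option autoImplicit false

open Polynomial

namespace Pool.Agent.HYP.Sv

open Pool.Agent.BSDP

variable {k : Type} [Field k]

/-- The family without the condition of regularity. -/
structure TopF (g m : ℕ) (φ : k[X]) (f : k[X][X]) : Prop where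
  monic : f.Monic
  deg : f.natDegree = 2 * g + 1
  tr : f.coeff (2 * g) = 0
  degc : ∀ j ≤ 2 * g + 1, (f.coeff j).natDegree ≤ 2 * m * (2 * g + 1 - j)
  lead : ∀ j ≤ 2 * g + 1, (f.coeff j).coeff (2 * m * (2 * g + 1 - j)) = φ.coeff j

theorem fam_iff {g m : ℕ} {φ : k[X]} {f : k[X][X]} :
    Fam g m φ f ↔ TopF g m φ f ∧ ∀ π : k[X], Irreducible π → RegP π f :=
  ⟨fun h => ⟨⟨h.1, h.2, h.3, h.4, h.5⟩, h.6⟩, fun h => ⟨h.1.1, h.1.2, h.1.3, h.1.4, h.1.5, h.2⟩⟩

/-- The polynomial `∑ v i * x ^ i`. -/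
noncomputable def toP {e : ℕ} (v : Fin e → k[X]) : k[X][X] := ∑ i : Fin e, C (v i) * X ^ (i : ℕ)

theorem toP_coeff {e : ℕ} (v : Fin e → k[X]) (j : ℕ) :
    (toP v).coeff j = if h : j < e then v ⟨j, h⟩ else 0 := by
  unfold toP
  rw [finsetSum_coeff]
  simp only [coeff_C_mul, coeff_X_pow]
  by_cases h : j < e
  · rw [dif_pos h, Finset.sum_eq_single (⟨j, h⟩ : Fin e)]
    · simp
    · intro b _ hb
      rw [if_neg, mul_zero]
      intro h2
      exact hb (Fin.ext h2.symm)
    · intro h2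
      exact absurd (Finset.mem_univ _) h2
  · rw [dif_neg h]
    refine Finset.sum_eq_zero fun i _ => ?_
    rw [if_neg, mul_zero]
    intro h2
    exact h (h2 ▸ i.2)

theorem toP_coeff_lt {e : ℕ} (v : Fin e → k[X]) (i : Fin e) : (toP v).coeff i = v i := by
  rw [toP_coeff, dif_pos i.2]

theorem toP_degree_lt {e : ℕ} (v : Fin e → k[X]) : (toP v).degree < (e : WithBot ℕ) := by
  rw [degree_lt_iff_coeff_zero]
  intro j hj
  rw [toP_coeff, dif_neg (by omega)]

theorem toP_sub {e : ℕ} (v w : Fin e → k[X]) : toP (v - w) = toP v - toP w := by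
  ext1 j
  rw [coeff_sub, toP_coeff, toP_coeff, toP_coeff]
  split_ifs <;> simp

theorem toP_inj {e : ℕ} {v w : Fin e → k[X]} (h : toP v = toP w) : v = w := by
  funext i
  rw [← toP_coeff_lt v i, h, toP_coeff_lt]

theorem topF_add {g m : ℕ} {φ : k[X]} {f B : k[X][X]} (hf : TopF g m φ f)
    (hB : ∀ j, 2 * g ≤ j → B.coeff j = 0)
    (hB' : ∀ j < 2 * g, (B.coeff j).degree < ((2 * m * (2 * g + 1 - j) : ℕ) : WithBot ℕ)) :
    TopF g m φ (f + B) := by
  have hBd : B.degree < f.degree := by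
    rw [degree_eq_natDegree hf.monic.ne_zero, hf.deg]
    refine lt_of_lt_of_le ((degree_lt_iff_coeff_zero B (2 * g)).2 hB) ?_
    exact_mod_cast Nat.le_succ _
  have hB2 : ∀ j, (B.coeff j).degree < ((2 * m * (2 * g + 1 - j) : ℕ) : WithBot ℕ) ∨
      B.coeff j = 0 := by
    intro j
    rcases Nat.lt_or_ge j (2 * g) with h | h
    · exact Or.inl (hB' j h)
    · exact Or.inr (hB j h)
  refine ⟨hf.monic.add_of_left hBd, ?_, ?_, ?_, ?_⟩
  · rw [natDegree_add_eq_left_of_degree_lt hBd, hf.deg]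
  · rw [coeff_add, hf.tr, hB _ le_rfl, add_zero]
  · intro j hj
    rw [coeff_add]
    refine (natDegree_add_le _ _).trans (max_le (hf.degc j hj) ?_)
    rcases hB2 j with h | h
    · exact natDegree_le_of_degree_le h.le
    · rw [h, natDegree_zero]
      exact Nat.zero_le _
  · intro j hj
    rw [coeff_add, coeff_add, hf.lead j hj]
    rcases hB2 j with h | h
    · rw [coeff_eq_zero_of_degree_lt h, add_zero]
    · rw [h, coeff_zero, add_zero]

theorem topF_sub {g m : ℕ} {φ : k[X]} {f B : k[X][X]} (hf : TopF g m φ f)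
    (hB : ∀ j, 2 * g ≤ j → B.coeff j = 0)
    (hB' : ∀ j < 2 * g, (B.coeff j).degree < ((2 * m * (2 * g + 1 - j) : ℕ) : WithBot ℕ)) :
    TopF g m φ (f - B) := by
  rw [sub_eq_add_neg]
  refine topF_add hf (fun j hj => ?_) (fun j hj => ?_)
  · rw [coeff_neg, hB j hj, neg_zero]
  · rw [coeff_neg, degree_neg]
    exact hB' j hj

/-- The number of the vectors of polynomials of degree `< d`. -/
theorem card_vec [Finite k] (d e : ℕ) :
    Nat.card (Fin e → {a : k[X] // a.degree < (d : WithBot ℕ)}) = (Nat.card k ^ d) ^ e := by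
  rw [Nat.card_pi]
  simp [card_degree_lt]

theorem finite_degree_lt' [Finite k] (n : ℕ) :
    Finite {f : k[X] // f.degree < (n : WithBot ℕ)} := by
  have : Finite (Polynomial.degreeLT k n) :=
    Finite.of_equiv _ (Polynomial.degreeLTEquiv k n).symm.toEquiv
  refine Finite.of_injective (fun f : {f : k[X] // f.degree < (n : WithBot ℕ)} =>
    (⟨f.1, Polynomial.mem_degreeLT.2 f.2⟩ : Polynomial.degreeLT k n)) ?_
  intro f g h
  exact Subtype.ext (congrArg (fun x : Polynomial.degreeLT k n => (x : k[X])) h)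

/-- The coefficients of a polynomial of the family. -/
noncomputable def topF_equiv {g m : ℕ} {φ : k[X]} (h1 : φ.coeff (2 * g + 1) = 1)
    (h0 : φ.coeff (2 * g) = 0) :
    {f : k[X][X] // TopF g m φ f} ≃
      (∀ j : Fin (2 * g), {a : k[X] // Top (2 * m * (2 * g + 1 - (j : ℕ))) (φ.coeff j) a}) where
  toFun f j := ⟨f.1.coeff j, f.2.degc j (by omega), f.2.lead j (by omega)⟩
  invFun v := ⟨X ^ (2 * g + 1) + toP (fun j => (v j).1), by
    have hd := toP_degree_lt (fun j => (v j).1)
    have hlt : (toP (fun j => (v j).1)).degree < ((2 * g + 1 : ℕ) : WithBot ℕ) :=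
      lt_trans hd (by exact_mod_cast Nat.lt_succ_self _)
    have hc : ∀ j < 2 * g, (X ^ (2 * g + 1) + toP (fun j => (v j).1) : k[X][X]).coeff j =
        if h : j < 2 * g then (v ⟨j, h⟩).1 else 0 := by
      intro j hj
      rw [coeff_add, toP_coeff, coeff_X_pow, if_neg (by omega), zero_add]
    have hm : (X ^ (2 * g + 1) + toP (fun j => (v j).1) : k[X][X]).Monic :=
      monic_X_pow_add hlt
    have hn : (X ^ (2 * g + 1) + toP (fun j => (v j).1) : k[X][X]).natDegree = 2 * g + 1 := by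
      rw [natDegree_add_eq_left_of_degree_lt, natDegree_X_pow]
      rw [degree_X_pow]
      exact hlt
    have ht : (X ^ (2 * g + 1) + toP (fun j => (v j).1) : k[X][X]).coeff (2 * g) = 0 := by
      rw [coeff_add, toP_coeff, coeff_X_pow, if_neg (by omega), dif_neg (by omega), zero_add]
    have ht1 : (X ^ (2 * g + 1) + toP (fun j => (v j).1) : k[X][X]).coeff (2 * g + 1) = 1 := by
      have := hm.coeff_natDegree
      rwa [hn] at this
    refine ⟨hm, hn, ht, ?_, ?_⟩
    · intro j hj
      rcases Nat.lt_or_ge j (2 * g) with h | h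
      · rw [hc j h, dif_pos h]
        exact (v ⟨j, h⟩).2.1
      · rcases Nat.eq_or_lt_of_le h with h2 | h2
        · rw [← h2, ht, natDegree_zero]
          exact Nat.zero_le _
        · have h3 : j = 2 * g + 1 := by omega
          rw [h3, ht1, natDegree_one]
          exact Nat.zero_le _
    · intro j hj
      rcases Nat.lt_or_ge j (2 * g) with h | h
      · rw [hc j h, dif_pos h]
        exact (v ⟨j, h⟩).2.2
      · rcases Nat.eq_or_lt_of_le h with h2 | h2
        · rw [← h2, ht, coeff_zero, h0]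
        · have h3 : j = 2 * g + 1 := by omega
          rw [h3, ht1, Nat.sub_self, Nat.mul_zero, coeff_one_zero, h1]⟩
  left_inv f := by
    refine Subtype.ext ?_
    ext1 j
    show (X ^ (2 * g + 1) + toP (fun j : Fin (2 * g) => f.1.coeff j) : k[X][X]).coeff j = f.1.coeff j
    rw [coeff_add, toP_coeff, coeff_X_pow]
    rcases Nat.lt_or_ge j (2 * g) with h | h
    · rw [if_neg (by omega), dif_pos h, zero_add]
    · rw [dif_neg (by omega), add_zero]
      rcases Nat.eq_or_lt_of_le h with h2 | h2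
      · rw [if_neg (by omega), ← h2, f.2.tr]
      · rcases Nat.eq_or_lt_of_le h2 with h3 | h3
        · rw [if_pos (by omega)]
          have h4 := f.2.monic.coeff_natDegree
          rw [f.2.deg] at h4
          rw [← h3, Nat.succ_eq_add_one, h4]
        · rw [if_neg (by omega), coeff_eq_zero_of_natDegree_lt]
          rw [f.2.deg]
          omega
  right_inv v := by
    funext j
    refine Subtype.ext ?_
    show (X ^ (2 * g + 1) + toP (fun j : Fin (2 * g) => (v j).1) : k[X][X]).coeff j = (v j).1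
    rw [coeff_add, toP_coeff, coeff_X_pow, if_neg (by omega), dif_pos j.2, zero_add]

theorem sum_exp (g m : ℕ) : ∑ j : Fin (2 * g), 2 * m * (2 * g + 1 - (j : ℕ)) =
    m * ((2 * g + 1) ^ 2 + (2 * g + 1) - 2) := by
  have h1 : ∑ j : Fin (2 * g), 2 * m * (2 * g + 1 - (j : ℕ)) =
      ∑ j ∈ Finset.range (2 * g), 2 * m * (j + 2) := by
    rw [Fin.sum_univ_eq_sum_range (fun j => 2 * m * (2 * g + 1 - j)) (2 * g),
      ← Finset.sum_range_reflect]
    refine Finset.sum_congr rfl fun j hj => ?_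
    have := Finset.mem_range.1 hj
    congr 1
    omega
  have h2 : ∀ r : ℕ, 2 * ∑ j ∈ Finset.range r, 2 * m * (j + 2) = 2 * m * (r * (r + 3)) := by
    intro r
    induction r with
    | zero => simp
    | succ r ih =>
      rw [Finset.sum_range_succ, mul_add, ih]
      ring
  have h3 := h2 (2 * g)
  have h4 : (2 * g + 1) ^ 2 + (2 * g + 1) - 2 = 2 * g * (2 * g + 3) := by
    have : (2 * g + 1) ^ 2 + (2 * g + 1) = 2 * g * (2 * g + 3) + 2 := by ring
    omega
  rw [h1, h4]
  have h5 : 2 * ∑ j ∈ Finset.range (2 * g), 2 * m * (j + 2) = 2 * (m * (2 * g * (2 * g + 3))) := by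
    rw [h3]
    ring
  omega

theorem card_topF [Finite k] {g m : ℕ} {φ : k[X]} (h1 : φ.coeff (2 * g + 1) = 1)
    (h0 : φ.coeff (2 * g) = 0) :
    Nat.card {f : k[X][X] // TopF g m φ f} =
      Nat.card k ^ (m * ((2 * g + 1) ^ 2 + (2 * g + 1) - 2)) := by
  rw [Nat.card_congr (topF_equiv h1 h0), Nat.card_pi, ← sum_exp, ← Finset.prod_pow_eq_pow_sum]
  exact Finset.prod_congr rfl fun j _ => card_top _ _

theorem finite_topF [Finite k] {g m : ℕ} {φ : k[X]} (h1 : φ.coeff (2 * g + 1) = 1)
    (h0 : φ.coeff (2 * g) = 0) : {f : k[X][X] | TopF g m φ f}.Finite := by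
  have h := card_topF (m := m) h1 h0
  have h' : Nat.card {f : k[X][X] // TopF g m φ f} ≠ 0 := by
    rw [h]
    exact pow_ne_zero _ Nat.card_pos.ne'
  exact Set.finite_coe_iff.1 (Nat.finite_of_card_ne_zero h')

/-- Double counting: `B × W → S × W`, `(f, w) ↦ (f - τ w, w)`. -/
theorem dc {A W : Type} [AddCommGroup A] [DecidableEq A] (S B : Finset A)
    (hBS : B ⊆ S) (Wf : Finset W) (τ : W → A) (hτ : ∀ f ∈ S, ∀ w ∈ Wf, f - τ w ∈ S) (M : ℕ)
    (hM : ∀ h ∈ S, (Wf.filter (fun w => h + τ w ∈ B)).card ≤ M) :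
    B.card * Wf.card ≤ S.card * M := by
  classical
  rw [← Finset.card_product]
  calc (B ×ˢ Wf).card ≤ (S.sigma (fun h => Wf.filter (fun w => h + τ w ∈ B))).card := by
        refine Finset.card_le_card_of_injOn (fun x => ⟨x.1 - τ x.2, x.2⟩) ?_ ?_
        · rintro ⟨f, w⟩ hx
          have hx' := Finset.mem_product.1 (Finset.mem_coe.1 hx)
          rw [Finset.mem_coe, Finset.mem_sigma, Finset.mem_filter]
          refine ⟨hτ f (hBS hx'.1) w hx'.2, hx'.2, ?_⟩
          show f - τ w + τ w ∈ B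
          rw [sub_add_cancel]
          exact hx'.1
        · rintro ⟨f, w⟩ _ ⟨f', w'⟩ _ h
          simp only [Sigma.mk.injEq, heq_eq_eq] at h
          obtain ⟨h1, h2⟩ := h
          subst h2
          rw [sub_left_inj] at h1
          rw [h1]
    _ = ∑ h ∈ S, (Wf.filter (fun w => h + τ w ∈ B)).card := Finset.card_sigma _ _
    _ ≤ S.card * M := by
        rw [← smul_eq_mul]
        exact Finset.sum_le_card_nsmul _ _ _ hM

end Pool.Agent.HYP.Sv
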