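import Pool.Agent.Lib.HYP.S.Base
import Mathlib.RingTheory.Polynomial.Resultant.Basic

/-!
MP_950c68_ag, genus `g`, block S (the sieve). Large primes, tools: the derivative `dt` with respect to
`t`, the resultant of the two partial derivatives, and the translates of a polynomial by constants.
-/

set_option autoImplicit false

open Polynomial

namespace Pool.Agent.HYP.Sv

open Pool.Agent.BSDP

variable {k : Type} [Field k]

/-- The derivative with respect to `t`. -/
noncomputable def dt (f : k[X][X]) : k[X][X] :=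
  toP (e := f.natDegree + 1) (fun i => derivative (f.coeff i))

theorem dt_coeff (f : k[X][X]) (j : ℕ) : (dt f).coeff j = derivative (f.coeff j) := by
  unfold dt
  rw [toP_coeff]
  split_ifs with h
  · rfl
  · rw [coeff_eq_zero_of_natDegree_lt (by omega), derivative_zero]

theorem dt_add (f h : k[X][X]) : dt (f + h) = dt f + dt h := by
  ext1 j
  rw [coeff_add, dt_coeff, dt_coeff, dt_coeff, coeff_add, derivative_add]

theorem dt_C (a : k[X]) : dt (C a : k[X][X]) = C (derivative a) := by
  ext1 j
  rw [dt_coeff, coeff_C, coeff_C]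
  split_ifs
  · rfl
  · exact derivative_zero

theorem dt_mul (f h : k[X][X]) : dt (f * h) = dt f * h + f * dt h := by
  ext1 n
  rw [dt_coeff, coeff_add, coeff_mul, coeff_mul, coeff_mul, derivative_sum,
    ← Finset.sum_add_distrib]
  refine Finset.sum_congr rfl fun x _ => ?_
  rw [dt_coeff, dt_coeff, derivative_mul]

/-- A map with the Leibniz rule sends a polynomial in the square of the ideal `(π, p)` to the ideal. -/
theorem leib_mem (D : k[X][X] → k[X][X]) (hD1 : ∀ f h, D (f + h) = D f + D h)
    (hD2 : ∀ f h, D (f * h) = D f * h + f * D h) {π : k[X]} {p a b c : k[X][X]} :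
    ∃ u v : k[X][X], D (C (π ^ 2) * a + C π * p * b + p ^ 2 * c) = C π * u + p * v := by
  rw [pow_two, map_mul, pow_two, hD1, hD1, hD2, hD2, hD2, hD2, hD2, hD2]
  exact ⟨D (C π) * a + D (C π) * a + C π * D a + D p * b + p * D b, D (C π) * b + D p * c +
    D p * c + p * D c, by ring⟩

theorem exists_common {π : k[X]} (hπ : Irreducible π) {f : k[X][X]} (hr : ¬ RegP π f) :
    ∃ P : (AdjoinRoot π)[X], P.Monic ∧ P.natDegree ≠ 0 ∧ P ∣ f.map (AdjoinRoot.mk π) ∧
      P ∣ (derivative f).map (AdjoinRoot.mk π) ∧ P ∣ (dt f).map (AdjoinRoot.mk π) := by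
  have : Fact (Irreducible π) := ⟨hπ⟩
  unfold RegP at hr
  push Not at hr
  obtain ⟨p, a, b, c, hp, hp1, habc⟩ := hr
  have hrπ : (C π : k[X][X]).map (AdjoinRoot.mk π) = 0 := by
    rw [map_C, AdjoinRoot.mk_self, C_0]
  have key : ∀ u v : k[X][X], p.map (AdjoinRoot.mk π) ∣ (C π * u + p * v).map (AdjoinRoot.mk π) := by
    intro u v
    rw [Polynomial.map_add, Polynomial.map_mul, Polynomial.map_mul, hrπ, zero_mul, zero_add]
    exact dvd_mul_right _ _
  refine ⟨p.map (AdjoinRoot.mk π), hp.map _, ?_, ?_, ?_, ?_⟩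
  · rw [hp.natDegree_map]
    omega
  · have h1 : f = C π * (C π * a + p * b) + p * (p * c) := by
      rw [habc, pow_two, map_mul]
      ring
    rw [h1]
    exact key _ _
  · obtain ⟨u, v, huv⟩ := leib_mem (fun f => derivative f) (fun _ _ => derivative_add)
      (fun _ _ => derivative_mul) (π := π) (p := p) (a := a) (b := b) (c := c)
    rw [habc]
    rw [huv]
    exact key _ _
  · obtain ⟨u, v, huv⟩ := leib_mem dt dt_add dt_mul (π := π) (p := p) (a := a) (b := b) (c := c)
    rw [habc, huv]
    exact key _ _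

/-- Over a field, the translates `u + y` which are not coprime to `c ≠ 0` are at most `deg c`. -/
theorem card_not_coprime {K W : Type} [Field K] [DecidableEq W] {c : K[X]} (hc : c ≠ 0) (u : K[X])
    (Wf : Finset W) (ψ : W → K) (hψ : Set.InjOn ψ Wf) (B : Finset W) (hB : B ⊆ Wf)
    (hB' : ∀ w ∈ B, ¬ IsCoprime c (u + C (ψ w))) : B.card ≤ c.natDegree := by
  classical
  have h1 : ∀ w ∈ B, ∃ α : AlgebraicClosure K, aeval α c = 0 ∧
      aeval α u = - algebraMap K (AlgebraicClosure K) (ψ w) := by
    intro w hw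
    have h2 := hB' w hw
    rw [isCoprime_iff_aeval_ne_zero_of_isAlgClosed K (AlgebraicClosure K)] at h2
    push Not at h2
    obtain ⟨α, h3, h4⟩ := h2
    refine ⟨α, h3, ?_⟩
    rw [map_add, aeval_C] at h4
    exact eq_neg_of_add_eq_zero_left h4
  choose! α hα1 hα2 using h1
  calc B.card ≤ (c.aroots (AlgebraicClosure K)).toFinset.card := by
        refine Finset.card_le_card_of_injOn α ?_ ?_
        · intro w hw
          rw [Finset.mem_coe, Multiset.mem_toFinset, mem_aroots]
          exact ⟨hc, hα1 w hw⟩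
        · intro w hw w' hw' h
          refine hψ (hB hw) (hB hw') ?_
          have h2 := hα2 w hw
          rw [h, hα2 w' hw', neg_inj] at h2
          exact (algebraMap K (AlgebraicClosure K)).injective h2.symm
    _ ≤ (c.aroots (AlgebraicClosure K)).card := Multiset.toFinset_card_le _
    _ ≤ c.natDegree := by
        rw [aroots_def]
        refine (card_roots' _).trans ?_
        rw [natDegree_map]

/-- The degree of a determinant. -/
theorem natDegree_det_le {N D : ℕ} (M : Matrix (Fin N) (Fin N) k[X])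
    (hM : ∀ i j, (M i j).natDegree ≤ D) : M.det.natDegree ≤ N * D := by
  rw [Matrix.det_apply]
  refine natDegree_sum_le_of_forall_le _ _ fun σ _ => ?_
  refine (natDegree_smul_le _ _).trans ?_
  refine (natDegree_prod_le _ _).trans ?_
  refine (Finset.sum_le_card_nsmul _ _ D fun i _ => hM _ _).trans ?_
  rw [Finset.card_univ, Fintype.card_fin, smul_eq_mul]

theorem natDegree_resultant_le {a b : k[X][X]} {M N D : ℕ}
    (ha : ∀ i, (a.coeff i).natDegree ≤ D) (hb : ∀ i, (b.coeff i).natDegree ≤ D) :
    (resultant a b M N).natDegree ≤ (M + N) * D := by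
  unfold resultant
  refine natDegree_det_le _ fun i j => ?_
  unfold sylvester
  rw [Matrix.of_apply]
  induction j using Fin.addCases with
  | left j =>
    rw [Fin.addCases_left]
    split_ifs
    · exact hb _
    · rw [natDegree_zero]
      exact Nat.zero_le _
  | right j =>
    rw [Fin.addCases_right]
    split_ifs
    · exact ha _
    · rw [natDegree_zero]
      exact Nat.zero_le _

/-- A finite set of monic irreducible polynomials of degree `> m` which divide `R ≠ 0`. -/
theorem card_primes {R : k[X]} (hR : R ≠ 0) {m : ℕ} (P : Finset k[X])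
    (hP : ∀ π ∈ P, π.Monic ∧ Irreducible π ∧ m ≤ π.natDegree ∧ π ∣ R) :
    P.card * m ≤ R.natDegree := by
  have hdvd : ∏ π ∈ P, π ∣ R := by
    refine Finset.prod_dvd_of_coprime ?_ fun π hπ => (hP π hπ).2.2.2
    intro π hπ ρ hρ hne'
    have h1 := hP π hπ
    have h2 := hP ρ hρ
    show IsCoprime π ρ
    refine (h1.2.1.coprime_iff_not_dvd).2 fun hdv => hne' ?_
    exact Polynomial.eq_of_monic_of_associated h1.1 h2.1 (h1.2.1.associated_of_dvd h2.2.1 hdv)
  have h1 := Polynomial.natDegree_le_of_dvd hdvd hR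
  rw [Polynomial.natDegree_prod_of_monic _ _ fun π hπ => (hP π hπ).1] at h1
  refine le_trans ?_ h1
  rw [← smul_eq_mul]
  exact Finset.card_nsmul_le_sum _ _ _ fun π hπ => (hP π hπ).2.2.1

theorem derivative_natDegree {g m : ℕ} {φ : k[X]} {f : k[X][X]} (hf : TopF g m φ f)
    (hn : ((2 * g + 1 : ℕ) : k) ≠ 0) : (derivative f).natDegree = 2 * g := by
  refine le_antisymm ?_ ?_
  · have := natDegree_derivative_le f
    rw [hf.deg] at this
    omega
  · refine le_natDegree_of_ne_zero ?_
    rw [coeff_derivative]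
    have h1 := hf.monic.coeff_natDegree
    rw [hf.deg] at h1
    rw [h1, one_mul]
    have h2 : ((2 * g : ℕ) : k[X]) + 1 = C ((2 * g + 1 : ℕ) : k) := by
      rw [C_eq_natCast]
      push_cast
      ring
    rw [h2, Ne, C_eq_zero]
    exact hn

theorem dt_natDegree_le {g m : ℕ} {φ : k[X]} {f : k[X][X]} (hf : TopF g m φ f) :
    (dt f).natDegree ≤ 2 * g + 1 := by
  rw [natDegree_le_iff_coeff_eq_zero]
  intro j hj
  rw [dt_coeff, coeff_eq_zero_of_natDegree_lt (by rw [hf.deg]; omega), derivative_zero]

theorem topF_coeff_le {g m : ℕ} {φ : k[X]} {f : k[X][X]} (hf : TopF g m φ f) (j : ℕ) :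
    (f.coeff j).natDegree ≤ 2 * m * (2 * g + 1) := by
  rcases Nat.lt_or_ge (2 * g + 1) j with h | h
  · rw [coeff_eq_zero_of_natDegree_lt (by rw [hf.deg]; omega), natDegree_zero]
    exact Nat.zero_le _
  · refine (hf.degc j h).trans (Nat.mul_le_mul_left _ (Nat.sub_le _ _))

theorem resultant_degree {g m : ℕ} {φ : k[X]} {f : k[X][X]} (hf : TopF g m φ f)
    (hn : ((2 * g + 1 : ℕ) : k) ≠ 0) :
    (resultant (derivative f) (dt f)).natDegree ≤ (4 * g + 1) * (2 * m * (2 * g + 1)) := by
  refine (natDegree_resultant_le (D := 2 * m * (2 * g + 1)) ?_ ?_).trans ?_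
  · intro i
    rw [coeff_derivative]
    refine natDegree_mul_le.trans ?_
    have h1 := topF_coeff_le hf (i + 1)
    have h2 : ((i : k[X]) + 1).natDegree = 0 := by
      have h3 : (i : k[X]) + 1 = ((i + 1 : ℕ) : k[X]) := by push_cast; rfl
      rw [h3]
      exact natDegree_natCast _
    omega
  · intro i
    rw [dt_coeff]
    have h1 := topF_coeff_le hf i
    have h2 := natDegree_derivative_le (f.coeff i)
    omega
  · refine Nat.mul_le_mul_right _ ?_
    have h1 := derivative_natDegree hf hn
    have h2 := dt_natDegree_le hf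
    omega

theorem dvd_resultant {g m : ℕ} (hg : 1 ≤ g) {φ : k[X]} {f : k[X][X]} (hf : TopF g m φ f)
    (hn : ((2 * g + 1 : ℕ) : k) ≠ 0) {π : k[X]} (hπ : Irreducible π) {P : (AdjoinRoot π)[X]}
    (hP0 : P.natDegree ≠ 0) (h1 : P ∣ (derivative f).map (AdjoinRoot.mk π))
    (h2 : P ∣ (dt f).map (AdjoinRoot.mk π)) : π ∣ resultant (derivative f) (dt f) := by
  have : Fact (Irreducible π) := ⟨hπ⟩
  obtain ⟨p, q, -, -, h3⟩ := exists_mul_add_mul_eq_C_resultant (derivative f) (dt f) le_rfl le_rfl
    (Or.inl (by rw [derivative_natDegree hf hn]; omega))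
  have h4 := congrArg (Polynomial.map (AdjoinRoot.mk π)) h3
  rw [Polynomial.map_add, Polynomial.map_mul, Polynomial.map_mul, map_C] at h4
  have h5 : P ∣ C (AdjoinRoot.mk π (resultant (derivative f) (dt f))) := by
    rw [← h4]
    exact dvd_add (h1.mul_right _) (h2.mul_right _)
  rw [← AdjoinRoot.mk_eq_zero]
  by_contra h6
  have h7 := natDegree_le_of_dvd h5 (by rwa [Ne, C_eq_zero])
  rw [natDegree_C] at h7
  omega

theorem derivative_map_ne_zero {g m : ℕ} {φ : k[X]} {f : k[X][X]} (hf : TopF g m φ f)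
    (hn : ((2 * g + 1 : ℕ) : k) ≠ 0) {K : Type} [Field K] (r : k[X] →+* K) :
    (derivative f).map r ≠ 0 ∧ ((derivative f).map r).natDegree ≤ 2 * g := by
  constructor
  · intro h
    have h1 := congrArg (fun P => P.coeff (2 * g)) h
    simp only [coeff_map, coeff_zero, coeff_derivative] at h1
    have h2 := hf.monic.coeff_natDegree
    rw [hf.deg] at h2
    rw [h2, one_mul] at h1
    have h3 : ((2 * g : ℕ) : k[X]) + 1 = C ((2 * g + 1 : ℕ) : k) := by
      rw [C_eq_natCast]
      push_cast
      ring
    rw [h3] at h1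
    have h4 : (r.comp C) ((2 * g + 1 : ℕ) : k) = 0 := h1
    rw [map_eq_zero] at h4
    exact hn h4
  · refine natDegree_map_le.trans ?_
    rw [derivative_natDegree hf hn]

theorem resultant_ne {f : k[X][X]} (h : IsCoprime ((derivative f).map (algebraMap k[X] (RatFunc k)))
      ((dt f).map (algebraMap k[X] (RatFunc k)))) : resultant (derivative f) (dt f) ≠ 0 := by
  intro h0
  have hinj : Function.Injective (algebraMap k[X] (RatFunc k)) :=
    IsFractionRing.injective k[X] (RatFunc k)
  refine resultant_ne_zero _ _ h ?_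
  rw [natDegree_map_eq_of_injective hinj, natDegree_map_eq_of_injective hinj,
    resultant_map_map, h0, map_zero]

end Pool.Agent.HYP.Sv
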