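import Pool.Agent.Lib.HYP.S.Deriv

/-!
MP_950c68_ag, genus `g`, block S (the sieve). Large primes: the polynomials whose partial derivatives
are not coprime over `k(t)`, and the others which are not regular at a prime of degree `> m`.
-/

set_option autoImplicit false

open Polynomial

namespace Pool.Agent.HYP.Sv

open Pool.Agent.BSDP

variable {k : Type} [Field k]

theorem C_high {g : ℕ} (hg : 1 ≤ g) (a : k[X]) (j : ℕ) (hj : 2 * g ≤ j) :
    (C a : k[X][X]).coeff j = 0 := by
  rw [coeff_C, if_neg (by omega)]

theorem C_low {g m : ℕ} {a : k[X]} (ha : a.natDegree < 2 * m * (2 * g + 1)) (j : ℕ)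
    (_hj : j < 2 * g) :
    ((C a : k[X][X]).coeff j).degree < ((2 * m * (2 * g + 1 - j) : ℕ) : WithBot ℕ) := by
  rw [coeff_C]
  split_ifs with h
  · rw [h, Nat.sub_zero]
    exact lt_of_le_of_lt degree_le_natDegree (by exact_mod_cast ha)
  · rw [degree_zero]
    exact WithBot.bot_lt_coe _

theorem derivative_add_C (h : k[X][X]) (a : k[X]) : derivative (h + C a) = derivative h := by
  rw [derivative_add, derivative_C, add_zero]

theorem natDegree_pow_lt {p L : ℕ} {w : k[X]} (hw : w.degree < (L : WithBot ℕ)) :
    (w ^ p).natDegree ≤ p * (L - 1) := by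
  rw [natDegree_pow]
  refine Nat.mul_le_mul_left _ ?_
  by_cases h0 : w = 0
  · rw [h0, natDegree_zero]
    exact Nat.zero_le _
  · have := (natDegree_lt_iff_degree_lt h0).2 hw
    omega

theorem derivative_pow_p {p : ℕ} [CharP k p] (w : k[X]) : derivative (w ^ p) = 0 := by
  rw [derivative_pow]
  have : (p : k) = 0 := CharP.cast_eq_zero k p
  rw [this, C_0, zero_mul, zero_mul]

/-- The polynomials whose partial derivatives are not coprime over `k(t)`. -/
theorem card_NG [Finite k] {g m p L : ℕ} [Fact p.Prime] [CharP k p] (hg : 1 ≤ g) {φ : k[X]}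
    (hn : ((2 * g + 1 : ℕ) : k) ≠ 0) (hL : 1 + p * (L - 1) < 2 * m * (2 * g + 1))
    (S : Finset k[X][X]) (hS : ∀ f, f ∈ S ↔ TopF g m φ f) (B : Finset k[X][X]) (hBS : B ⊆ S)
    (hB : ∀ f ∈ B, ¬ IsCoprime ((derivative f).map (algebraMap k[X] (RatFunc k)))
      ((dt f).map (algebraMap k[X] (RatFunc k)))) :
    B.card * Nat.card k ^ L ≤ S.card * (2 * g) := by
  classical
  have f1 := finite_degree_lt' (k := k) L
  let W := {a : k[X] // a.degree < (L : WithBot ℕ)}
  let _ : Fintype W := Fintype.ofFinite _
  have hW : (Finset.univ : Finset W).card = Nat.card k ^ L := by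
    rw [Finset.card_univ, ← Nat.card_eq_fintype_card]
    exact card_degree_lt L
  have hX : ∀ w : W, (X * w.1 ^ p : k[X]).natDegree < 2 * m * (2 * g + 1) := by
    intro w
    refine lt_of_le_of_lt natDegree_mul_le ?_
    rw [natDegree_X]
    have := natDegree_pow_lt (p := p) w.2
    omega
  have hdc := dc S B hBS (Finset.univ : Finset W) (fun w => C (X * w.1 ^ p)) ?_ (2 * g) ?_
  · rw [hW] at hdc
    exact hdc
  · intro f hf w _
    rw [hS] at hf ⊢
    exact topF_sub hf (C_high hg _) (C_low (hX w))
  · intro h hh
    rw [hS] at hh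
    have h1 := derivative_map_ne_zero hh hn (algebraMap k[X] (RatFunc k))
    have hder : ∀ w : W, dt (h + C (X * w.1 ^ p)) = dt h + C (w.1 ^ p) := by
      intro w
      rw [dt_add, dt_C, derivative_mul, derivative_X, one_mul, derivative_pow_p, mul_zero,
        add_zero]
    refine (card_not_coprime h1.1 ((dt h).map (algebraMap k[X] (RatFunc k)))
      (Finset.univ : Finset W) (fun w => algebraMap k[X] (RatFunc k) (w.1 ^ p)) ?_ _
      (Finset.filter_subset _ _) ?_).trans h1.2
    · intro w _ w' _ h2
      have hinj : Function.Injective (algebraMap k[X] (RatFunc k)) :=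
        IsFractionRing.injective k[X] (RatFunc k)
      have h3 : w.1 ^ p = w'.1 ^ p := hinj h2
      have h4 := frobenius_inj k[X] p h3
      exact Subtype.ext h4
    · intro w hw
      rw [Finset.mem_filter] at hw
      have h2 := hB _ hw.2
      rw [derivative_add_C, hder, Polynomial.map_add, map_C] at h2
      exact h2

/-- The polynomials with coprime partial derivatives which are not regular at a large prime. -/
theorem card_GB [Finite k] {g m p L : ℕ} [Fact p.Prime] [CharP k p] (hg : 1 ≤ g) (hm : 1 ≤ m)
    {φ : k[X]} (hn : ((2 * g + 1 : ℕ) : k) ≠ 0) (hL : 1 + p * (L - 1) < 2 * m * (2 * g + 1))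
    (hLm : L ≤ m) (S : Finset k[X][X]) (hS : ∀ f, f ∈ S ↔ TopF g m φ f) (B : Finset k[X][X])
    (hBS : B ⊆ S)
    (hB : ∀ f ∈ B, IsCoprime ((derivative f).map (algebraMap k[X] (RatFunc k)))
      ((dt f).map (algebraMap k[X] (RatFunc k))) ∧
      ∃ π : k[X], π.Monic ∧ Irreducible π ∧ m < π.natDegree ∧ ¬ RegP π f) :
    B.card * Nat.card k ^ L ≤ S.card * ((4 * g + 1) * (2 * (2 * g + 1)) * (2 * g)) := by
  classical
  have f1 := finite_degree_lt' (k := k) L
  let W := {a : k[X] // a.degree < (L : WithBot ℕ)}
  let _ : Fintype W := Fintype.ofFinite _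
  have hW : (Finset.univ : Finset W).card = Nat.card k ^ L := by
    rw [Finset.card_univ, ← Nat.card_eq_fintype_card]
    exact card_degree_lt L
  have hX : ∀ w : W, (w.1 ^ p : k[X]).natDegree < 2 * m * (2 * g + 1) := by
    intro w
    have := natDegree_pow_lt (p := p) w.2
    omega
  have hdc := dc S B hBS (Finset.univ : Finset W) (fun w => C (w.1 ^ p)) ?_
    ((4 * g + 1) * (2 * (2 * g + 1)) * (2 * g)) ?_
  · rw [hW] at hdc
    exact hdc
  · intro f hf w _
    rw [hS] at hf ⊢
    exact topF_sub hf (C_high hg _) (C_low (hX w))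
  · intro h hh
    rw [hS] at hh
    have hdt : ∀ w : W, dt (h + C (w.1 ^ p)) = dt h := by
      intro w
      rw [dt_add, dt_C, derivative_pow_p, C_0, add_zero]
    set R : k[X] := resultant (derivative h) (dt h) with hR
    by_cases hR0 : R = 0
    · have he : (Finset.univ.filter (fun w : W => h + C (w.1 ^ p) ∈ B)) = ∅ := by
        rw [Finset.filter_eq_empty_iff]
        intro w _ hw
        have h2 := resultant_ne (hB _ hw).1
        rw [derivative_add_C, hdt] at h2
        exact h2 hR0
      rw [he, Finset.card_empty]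
      exact Nat.zero_le _
    · -- the large primes which divide `R`
      set P : Finset k[X] := ((finite_natDegree_le' (k := k) R.natDegree).toFinset).filter
        (fun π => π.Monic ∧ Irreducible π ∧ m < π.natDegree ∧ π ∣ R) with hP
      have hPc : P.card ≤ (4 * g + 1) * (2 * (2 * g + 1)) := by
        have h2 := card_primes hR0 (m := m) P (fun π hπ => by
          rw [hP, Finset.mem_filter] at hπ
          exact ⟨hπ.2.1, hπ.2.2.1, hπ.2.2.2.1.le, hπ.2.2.2.2⟩)
        have h3 := resultant_degree hh hn
        have h4 : P.card * m ≤ (4 * g + 1) * (2 * (2 * g + 1)) * m := by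
          refine h2.trans (h3.trans (le_of_eq ?_))
          ring
        exact Nat.le_of_mul_le_mul_right h4 hm
      have hcov : (Finset.univ.filter (fun w : W => h + C (w.1 ^ p) ∈ B)) ⊆
          P.biUnion (fun π => Finset.univ.filter (fun w : W =>
            ¬ IsCoprime ((derivative h).map (AdjoinRoot.mk π))
              (h.map (AdjoinRoot.mk π) + C (AdjoinRoot.mk π (w.1 ^ p))))) := by
        intro w hw
        rw [Finset.mem_filter] at hw
        obtain ⟨_, π, h2, h3, h4, h5⟩ := hB _ hw.2
        have : Fact (Irreducible π) := ⟨h3⟩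
        obtain ⟨Q, hQ, hQ0, hQ1, hQ2, hQ3⟩ := exists_common h3 h5
        rw [derivative_add_C] at hQ2
        rw [hdt] at hQ3
        rw [Polynomial.map_add, map_C] at hQ1
        have h6 : π ∣ R := dvd_resultant hg hh hn h3 hQ0 hQ2 hQ3
        rw [Finset.mem_biUnion]
        refine ⟨π, ?_, ?_⟩
        · rw [hP, Finset.mem_filter, Set.Finite.mem_toFinset]
          exact ⟨natDegree_le_of_dvd h6 hR0, h2, h3, h4, h6⟩
        · rw [Finset.mem_filter]
          refine ⟨Finset.mem_univ _, fun hcop => ?_⟩
          have h7 : IsUnit Q := hcop.isUnit_of_dvd' hQ2 hQ1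
          rw [Polynomial.isUnit_iff_degree_eq_zero] at h7
          exact hQ0 (natDegree_eq_of_degree_eq_some h7)
      refine (Finset.card_le_card hcov).trans (Finset.card_biUnion_le.trans ?_)
      refine (Finset.sum_le_card_nsmul _ _ (2 * g) ?_).trans ?_
      · intro π hπ
        rw [hP, Finset.mem_filter] at hπ
        obtain ⟨_, h2, h3, h4, h5⟩ := hπ
        have : Fact (Irreducible π) := ⟨h3⟩
        have h1 := derivative_map_ne_zero hh hn (AdjoinRoot.mk π)
        refine (card_not_coprime h1.1 (h.map (AdjoinRoot.mk π))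
          (Finset.univ : Finset W) (fun w => AdjoinRoot.mk π (w.1 ^ p)) ?_ _
          (Finset.filter_subset _ _) ?_).trans h1.2
        · intro w _ w' _ h6
          have hc : CharP (AdjoinRoot π) p := charP_of_injective_algebraMap
            (algebraMap k (AdjoinRoot π)).injective p
          have h7 : (AdjoinRoot.mk π w.1) ^ p = (AdjoinRoot.mk π w'.1) ^ p := by
            rw [← map_pow, ← map_pow]
            exact h6
          have h8 := frobenius_inj (AdjoinRoot π) p h7
          rw [← sub_eq_zero, ← map_sub, AdjoinRoot.mk_eq_zero] at h8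
          refine Subtype.ext (sub_eq_zero.1 ?_)
          by_contra h9
          have h10 := natDegree_le_of_dvd h8 h9
          have h11 : (w.1 - w'.1).degree < (L : WithBot ℕ) :=
            lt_of_le_of_lt (degree_sub_le _ _) (max_lt w.2 w'.2)
          have h12 := (natDegree_lt_iff_degree_lt h9).2 h11
          omega
        · intro w hw
          exact (Finset.mem_filter.1 hw).2
      · rw [smul_eq_mul]
        exact Nat.mul_le_mul_right _ hPc

end Pool.Agent.HYP.Sv
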