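import Pool.Agent.Lib.HYP.S.SmallSum
import Pool.Agent.Lib.HYP.S.Large
import Pool.Agent.Lib.BSDP.C.Irr
import Pool.Agent.Lib.BSDP.C.Num

/-!
MP_950c68_ag, genus `g`, block S: the sieve. At least half of the polynomials of the family are
regular.
-/

set_option autoImplicit false

open Polynomial

namespace Pool.Agent.HYP.Sv

open Pool.Agent.BSDP

variable {k : Type} [Field k]

theorem regP_of_associated {π ρ : k[X]} (h : Associated π ρ) {f : k[X][X]} (hr : RegP ρ f) :
    RegP π f := by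
  obtain ⟨u, hu⟩ := h.symm
  intro p a b c hp hp1 hf
  refine hr p (C (u : k[X]) ^ 2 * a) (C (u : k[X]) * b) c hp hp1 ?_
  rw [hf, ← hu, mul_pow, C_mul, C_mul, C_pow, C_pow]
  ring

theorem exists_m0 {q p : ℕ} (hq : 2 ≤ q) (hp : 5 ≤ p) (c : ℕ) :
    ∃ m0 : ℕ, 2 ≤ m0 ∧ ∀ m ≥ m0, c ≤ q ^ (m / p + 1) := by
  refine ⟨p * c + 2, by omega, fun m hm => ?_⟩
  have h1 : c ≤ m / p := by
    rw [Nat.le_div_iff_mul_le (by omega), mul_comm]
    omega
  have h2 : m / p + 1 < q ^ (m / p + 1) := Nat.lt_pow_self (by omega)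
  omega

theorem sieve [Finite k] {g p : ℕ} [Fact p.Prime] [CharP k p] (hg : 1 ≤ g) (hp : 2 * g + 1 < p)
    {φ : k[X]} (h1 : φ.coeff (2 * g + 1) = 1) (h0 : φ.coeff (2 * g) = 0) :
    ∃ m0 : ℕ, ∀ m ≥ m0, Nat.card k ^ (m * ((2 * g + 1) ^ 2 + (2 * g + 1) - 2)) ≤
      2 * Nat.card {f : k[X][X] // Fam g m φ f} := by
  classical
  set q := Nat.card k with hq
  have hp5 : 5 ≤ p := by
    by_contra h
    have h2 : p = 4 := by omega
    have h3 := (Fact.out : p.Prime)
    rw [h2] at h3
    exact absurd h3 (by norm_num)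
  have hpq : p ≤ q := by
    let _ : Fintype k := Fintype.ofFinite k
    obtain ⟨n, -, hn⟩ := FiniteField.card k p
    rw [hq, Nat.card_eq_fintype_card, hn]
    exact Nat.le_self_pow n.2.ne' p
  have hq5 : 5 ≤ q := hp5.trans hpq
  have hq5' : (5 : ℝ) ≤ (q : ℝ) := by exact_mod_cast hq5
  have hq0 : (0 : ℝ) < (q : ℝ) := by linarith
  have hn : ((2 * g + 1 : ℕ) : k) ≠ 0 := by
    intro h
    rw [CharP.cast_eq_zero_iff k p] at h
    exact absurd (Nat.le_of_dvd (by omega) h) (by omega)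
  set c := 4 * ((4 * g + 1) * (2 * (2 * g + 1)) * (2 * g) + 2 * g) with hc
  obtain ⟨m0, hm0, hm0'⟩ := exists_m0 (by omega : 2 ≤ q) hp5 c
  refine ⟨m0, fun m hm => ?_⟩
  have hcL := hm0' m hm
  set L := m / p + 1 with hL
  have hm2 : 2 ≤ m := hm0.trans hm
  have hpm : p * (m / p) ≤ m := Nat.mul_div_le m p
  have hLm : L ≤ m := by
    have h2 : m / p ≤ m / 2 := Nat.div_le_div_left (by omega) (by norm_num)
    omega
  have hL1 : 1 + p * (L - 1) < 2 * m * (2 * g + 1) := by
    have h2 : L - 1 = m / p := by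
      rw [hL]
      exact Nat.add_sub_cancel _ _
    rw [h2]
    have h3 : 2 * m * 3 ≤ 2 * m * (2 * g + 1) := Nat.mul_le_mul_left _ (by omega)
    omega
  -- the finite set of all polynomials
  have hfin := finite_topF (m := m) h1 h0
  set S : Finset k[X][X] := hfin.toFinset with hS
  have hmemS : ∀ f, f ∈ S ↔ TopF g m φ f := fun f => by
    rw [hS, Set.Finite.mem_toFinset]
    rfl
  have hScard : S.card = q ^ (m * ((2 * g + 1) ^ 2 + (2 * g + 1) - 2)) := by
    rw [hq, ← card_topF h1 h0]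
    exact (Nat.subtype_card S hmemS).symm
  rw [← hScard]
  set F : Finset k[X][X] := S.filter (fun f => ∀ π : k[X], Irreducible π → RegP π f) with hF
  have hFcard : Nat.card {f : k[X][X] // Fam g m φ f} = F.card := by
    refine Nat.subtype_card F fun f => ?_
    rw [hF, Finset.mem_filter, hmemS, fam_iff]
  set B1 : Finset k[X][X] := S.filter (fun f =>
    ¬ IsCoprime ((derivative f).map (algebraMap k[X] (RatFunc k)))
      ((dt f).map (algebraMap k[X] (RatFunc k)))) with hB1
  set B2 : Finset k[X][X] := S.filter (fun f =>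
    IsCoprime ((derivative f).map (algebraMap k[X] (RatFunc k)))
      ((dt f).map (algebraMap k[X] (RatFunc k))) ∧
      ∃ π : k[X], π.Monic ∧ Irreducible π ∧ m < π.natDegree ∧ ¬ RegP π f) with hB2
  have hb1 : B1.card * q ^ L ≤ S.card * (2 * g) :=
    card_NG (p := p) hg hn hL1 S hmemS B1 (Finset.filter_subset _ _)
      (fun f hf => (Finset.mem_filter.1 hf).2)
  have hb2 : B2.card * q ^ L ≤ S.card * ((4 * g + 1) * (2 * (2 * g + 1)) * (2 * g)) :=
    card_GB (p := p) hg (by omega) hn hL1 hLm S hmemS B2 (Finset.filter_subset _ _)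
      (fun f hf => (Finset.mem_filter.1 hf).2)
  have hb : 4 * (B1.card + B2.card) ≤ S.card := by
    have h2 : (4 * (B1.card + B2.card)) * q ^ L ≤ S.card * q ^ L := by
      calc (4 * (B1.card + B2.card)) * q ^ L = 4 * (B1.card * q ^ L) + 4 * (B2.card * q ^ L) := by
            ring
        _ ≤ 4 * (S.card * (2 * g)) + 4 * (S.card * ((4 * g + 1) * (2 * (2 * g + 1)) * (2 * g))) := by
            omega
        _ = S.card * c := by
            rw [hc]
            ring
        _ ≤ S.card * q ^ L := Nat.mul_le_mul_left _ hcL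
    exact Nat.le_of_mul_le_mul_right h2 (by positivity)
  -- the small primes
  let Bf : k[X] → Finset k[X][X] := fun π => S.filter (fun f => ¬ RegP π f)
  let Ir : ℕ → Finset k[X] := fun d => (finite_irr (k := k) d).toFinset
  have hIr : ∀ d π, π ∈ Ir d ↔ π.Monic ∧ Irreducible π ∧ π.natDegree = d := fun d π => by
    rw [Set.Finite.mem_toFinset]
    rfl
  have hIcard : ∀ d, 0 < d → ((Ir d).card : ℝ) ≤ (q : ℝ) ^ d / d := by
    intro d hd
    have h := irr_card (k := k) d hd
    rw [Nat.subtype_card (Ir d) (hIr d)] at h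
    rw [le_div_iff₀ (by exact_mod_cast hd), mul_comm]
    exact_mod_cast h
  have hcov : S ⊆ F ∪ ((B1 ∪ B2) ∪ (Finset.Icc 1 m).biUnion (fun d => (Ir d).biUnion Bf)) := by
    intro f hf
    rw [Finset.mem_union, Finset.mem_union, Finset.mem_union]
    by_cases hreg : ∀ π : k[X], Irreducible π → RegP π f
    · left
      rw [hF, Finset.mem_filter]
      exact ⟨hf, hreg⟩
    · right
      push Not at hreg
      obtain ⟨π, hπ, hr⟩ := hreg
      have hass : Associated π (normalize π) := associated_normalize π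
      have hirr : Irreducible (normalize π) := hass.irreducible_iff.1 hπ
      have hmon : (normalize π).Monic := monic_normalize hπ.ne_zero
      have hr' : ¬ RegP (normalize π) f := fun h => hr (regP_of_associated hass h)
      rcases Nat.lt_or_ge m (normalize π).natDegree with hd | hd
      · left
        by_cases hcop : IsCoprime ((derivative f).map (algebraMap k[X] (RatFunc k)))
            ((dt f).map (algebraMap k[X] (RatFunc k)))
        · right
          rw [hB2, Finset.mem_filter]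
          exact ⟨hf, hcop, _, hmon, hirr, hd, hr'⟩
        · left
          rw [hB1, Finset.mem_filter]
          exact ⟨hf, hcop⟩
      · right
        rw [Finset.mem_biUnion]
        refine ⟨(normalize π).natDegree, Finset.mem_Icc.2 ⟨hirr.natDegree_pos, hd⟩, ?_⟩
        rw [Finset.mem_biUnion]
        exact ⟨_, (hIr _ _).2 ⟨hmon, hirr, rfl⟩, Finset.mem_filter.2 ⟨hf, hr'⟩⟩
  have hcount : S.card ≤ F.card + (B1.card + B2.card +
      ∑ d ∈ Finset.Icc 1 m, ∑ π ∈ Ir d, (Bf π).card) := by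
    refine (Finset.card_le_card hcov).trans ((Finset.card_union_le _ _).trans ?_)
    refine Nat.add_le_add_left ((Finset.card_union_le _ _).trans ?_) _
    refine Nat.add_le_add (Finset.card_union_le _ _) (Finset.card_biUnion_le.trans ?_)
    exact Finset.sum_le_sum fun d _ => Finset.card_biUnion_le
  have hsmall : ∀ d ∈ Finset.Icc 1 m, ((∑ π ∈ Ir d, (Bf π).card : ℕ) : ℝ) ≤
      25 / 24 * (S.card : ℝ) * ((1 / (q : ℝ)) ^ d / d) := by
    intro d hd
    rw [Finset.mem_Icc] at hd
    have hd0 : (0 : ℝ) < d := by exact_mod_cast hd.1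
    have h4 : ((∑ π ∈ Ir d, (Bf π).card : ℕ) : ℝ) ≤
        (Ir d).card * (25 / 24 * (1 / (q : ℝ) ^ d) ^ 2 * S.card) := by
      push_cast
      rw [← nsmul_eq_mul]
      refine Finset.sum_le_card_nsmul _ _ _ fun π hπ => ?_
      obtain ⟨h5, h6, h7⟩ := (hIr d π).1 hπ
      have h8 := card_bad_pi (m := m) h1 h0 hq5 h5 h6 (by omega)
      rw [h7, Nat.subtype_card S hmemS, Nat.subtype_card (Bf π) (fun f => by
        rw [Finset.mem_filter, hmemS])] at h8
      exact h8
    refine h4.trans ?_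
    have h6 := hIcard d hd.1
    calc ((Ir d).card : ℝ) * (25 / 24 * (1 / (q : ℝ) ^ d) ^ 2 * S.card)
        ≤ ((q : ℝ) ^ d / d) * (25 / 24 * (1 / (q : ℝ) ^ d) ^ 2 * S.card) :=
          mul_le_mul_of_nonneg_right h6 (by positivity)
      _ = 25 / 24 * (S.card : ℝ) * ((1 / (q : ℝ)) ^ d / d) := by
          rw [one_div, one_div, inv_pow, inv_pow]
          have h8 : (q : ℝ) ^ d ≠ 0 := by positivity
          field_simp
  have hsum : ∑ d ∈ Finset.Icc 1 m, ((∑ π ∈ Ir d, (Bf π).card : ℕ) : ℝ) ≤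
      25 / 24 * (S.card : ℝ) * (9 / 40) := by
    refine (Finset.sum_le_sum hsmall).trans ?_
    rw [← Finset.mul_sum]
    exact mul_le_mul_of_nonneg_left (sum_small hq5' m) (by positivity)
  have hcountR : (S.card : ℝ) ≤ F.card + (((B1.card : ℝ) + B2.card) +
      ∑ d ∈ Finset.Icc 1 m, ((∑ π ∈ Ir d, (Bf π).card : ℕ) : ℝ)) := by
    exact_mod_cast hcount
  have hbR : 4 * ((B1.card : ℝ) + B2.card) ≤ S.card := by exact_mod_cast hb
  have hS0 : (0 : ℝ) ≤ S.card := Nat.cast_nonneg _
  have hfinal : (S.card : ℝ) ≤ 2 * (F.card : ℝ) := by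
    linarith
  rw [hFcard]
  exact_mod_cast hfinal

/-- The sieve, with the condition on the characteristic as `i ≠ 0` for `1 ≤ i ≤ 2 g + 1`. -/
theorem sieve' [Finite k] {g : ℕ} (hg : 1 ≤ g)
    (hchar : ∀ i : ℕ, 1 ≤ i → i ≤ 2 * g + 1 → (i : k) ≠ 0)
    {φ : k[X]} (h1 : φ.coeff (2 * g + 1) = 1) (h0 : φ.coeff (2 * g) = 0) :
    ∃ m0 : ℕ, ∀ m ≥ m0, Nat.card k ^ (m * ((2 * g + 1) ^ 2 + (2 * g + 1) - 2)) ≤
      2 * Nat.card {f : k[X][X] // Fam g m φ f} := by
  obtain ⟨p, hp⟩ := CharP.exists k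
  have hprime : p.Prime := CharP.char_is_prime k p
  have : Fact p.Prime := ⟨hprime⟩
  refine sieve (p := p) hg ?_ h1 h0
  by_contra h
  exact hchar p hprime.one_le (by omega) (CharP.cast_eq_zero k p)

theorem finite_fam [Finite k] {g m : ℕ} {φ : k[X]} (h1 : φ.coeff (2 * g + 1) = 1)
    (h0 : φ.coeff (2 * g) = 0) : {f : k[X][X] | Fam g m φ f}.Finite :=
  (finite_topF h1 h0).subset fun _ h => (fam_iff.1 h).1

end Pool.Agent.HYP.Sv
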