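import Pool.Agent.Lib.HYP.Ifc
import Pool.Agent.Lib.HYP.S.Main

/-!
Module S.Sieve: at least half of the polynomials with the given leading form are regular.
-/

set_option autoImplicit false

open Polynomial

namespace Pool.Agent.HYP

theorem sieve {k : Type} [Field k] [Finite k] (g : ℕ) (hg : 2 ≤ g) (hp : 2 * g + 1 < ringChar k)
    (φ : k[X]) (hφ : LeadForm g φ) : ∃ m₀ : ℕ, ∀ m ≥ m₀,
      Nat.card k ^ (m * ((2 * g + 1) ^ 2 + (2 * g + 1) - 2)) ≤
        2 * Nat.card {f : k[X][X] // Fam g m φ f} := by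
  have hchar : CharP k (ringChar k) := ringChar.charP k
  have hprime : (ringChar k).Prime := CharP.char_is_prime k (ringChar k)
  have : Fact (ringChar k).Prime := ⟨hprime⟩
  have h1 : φ.coeff (2 * g + 1) = 1 := by
    have h := hφ.monic.coeff_natDegree
    rwa [hφ.deg] at h
  exact Sv.sieve (p := ringChar k) (by omega) hp h1 hφ.tr

end Pool.Agent.HYP
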