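import Pool.Agent.Lib.HYP.S.Base

/-!
MP_950c68_ag, genus `g`, block S (the sieve). Small primes: `π` monic irreducible of degree `d ≤ m`.
If `f` is not regular at `π`, it is in the square of the ideal `(π, s)`, `s` monic of degree
`e ∈ [1, g]` with coefficients of degree `< d`; the translates of the set of these `f` by
`B₀ + s B₁`, `deg B₀ < 2 d`, `deg B₁ < d`, `deg_x < e`, are disjoint.
-/

set_option autoImplicit false

open Polynomial

namespace Pool.Agent.HYP.Sv

open Pool.Agent.BSDP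

variable {k : Type} [Field k]

/-- `f` is in the square of the ideal `(π, s)`. -/
def InSq (π : k[X]) (s f : k[X][X]) : Prop :=
  ∃ a b c : k[X][X], f = C (π ^ 2) * a + C π * s * b + s ^ 2 * c

theorem InSq.sub {π : k[X]} {s f f' : k[X][X]} (h : InSq π s f) (h' : InSq π s f') :
    InSq π s (f - f') := by
  obtain ⟨a, b, c, rfl⟩ := h
  obtain ⟨a', b', c', rfl⟩ := h'
  exact ⟨a - a', b - b', c - c', by ring⟩

theorem map_mk_eq_zero {π : k[X]} {P : k[X][X]} :
    P.map (AdjoinRoot.mk π) = 0 ↔ C π ∣ P := by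
  rw [C_dvd_iff_dvd_coeff]
  constructor
  · intro h i
    rw [← AdjoinRoot.mk_eq_zero, ← coeff_map, h, coeff_zero]
  · intro h
    ext1 i
    rw [coeff_map, coeff_zero, AdjoinRoot.mk_eq_zero]
    exact h i

/-- A polynomial whose coefficients have degree `< n` and are divisible by `M` of degree `≥ n`
vanishes. -/
theorem eq_zero_of_C_dvd {M : k[X]} {n : ℕ} (hM : n ≤ M.natDegree) {P : k[X][X]}
    (hP : ∀ i, (P.coeff i).degree < (n : WithBot ℕ)) (h : C M ∣ P) : P = 0 := by
  rw [C_dvd_iff_dvd_coeff] at h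
  ext1 i
  rw [coeff_zero]
  by_contra h0
  have h1 := natDegree_le_of_dvd (h i) h0
  have h2 := (natDegree_lt_iff_degree_lt h0).2 (hP i)
  omega

theorem inSq_unique {π : k[X]} (hπ : Irreducible π) {s B0 B1 : k[X][X]}
    (hs : s.Monic) {e : ℕ} (he : s.natDegree = e) (h1 : B1.degree < (e : WithBot ℕ))
    (h1' : ∀ i, (B1.coeff i).degree < (π.natDegree : WithBot ℕ)) (h0 : B0.degree < (e : WithBot ℕ))
    (h0' : ∀ i, (B0.coeff i).degree < ((2 * π.natDegree : ℕ) : WithBot ℕ))
    (h : InSq π s (B0 + s * B1)) : B0 = 0 ∧ B1 = 0 := by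
  have : Fact (Irreducible π) := ⟨hπ⟩
  obtain ⟨a, b, c, habc⟩ := h
  have hπ0 : π ≠ 0 := hπ.ne_zero
  have hCπ : (C π : k[X][X]) ≠ 0 := by
    rw [Ne, C_eq_zero]
    exact hπ0
  have hrs : (s.map (AdjoinRoot.mk π)).Monic := hs.map _
  have hrsd : (s.map (AdjoinRoot.mk π)).degree = (e : WithBot ℕ) := by
    rw [degree_eq_natDegree hrs.ne_zero, hs.natDegree_map, he]
  have hrπ : (C π : k[X][X]).map (AdjoinRoot.mk π) = 0 := map_mk_eq_zero.2 dvd_rfl
  have hrπ2 : (C (π ^ 2) : k[X][X]).map (AdjoinRoot.mk π) = 0 :=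
    map_mk_eq_zero.2 (by rw [pow_two, map_mul]; exact dvd_mul_right _ _)
  have hB0d : (B0.map (AdjoinRoot.mk π)).degree < (e : WithBot ℕ) :=
    lt_of_le_of_lt degree_map_le h0
  have hB1d : (B1.map (AdjoinRoot.mk π)).degree < (e : WithBot ℕ) :=
    lt_of_le_of_lt degree_map_le h1
  have key : ∀ (u v : (AdjoinRoot π)[X]), u.degree < (e : WithBot ℕ) →
      u = s.map (AdjoinRoot.mk π) * v → v = 0 ∧ u = 0 := by
    intro u v hu huv
    have hv : v = 0 := by
      by_contra hv0
      rw [huv, degree_mul, hrsd] at hu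
      have h2 : (0 : WithBot ℕ) ≤ v.degree := zero_le_degree_iff.2 hv0
      exact absurd hu (not_lt.2 (le_add_of_nonneg_right h2))
    exact ⟨hv, by rw [huv, hv, mul_zero]⟩
  have e1 := congrArg (Polynomial.map (AdjoinRoot.mk π)) habc
  simp only [Polynomial.map_add, Polynomial.map_mul, Polynomial.map_pow, hrπ, hrπ2, zero_mul,
    zero_add] at e1
  -- the part with `s`
  have e2 : B0.map (AdjoinRoot.mk π) = s.map (AdjoinRoot.mk π) *
      (s.map (AdjoinRoot.mk π) * c.map (AdjoinRoot.mk π) - B1.map (AdjoinRoot.mk π)) := by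
    linear_combination e1
  obtain ⟨e3, e4⟩ := key _ _ hB0d e2
  have e5 : B1.map (AdjoinRoot.mk π) = s.map (AdjoinRoot.mk π) * c.map (AdjoinRoot.mk π) := by
    linear_combination -e3
  obtain ⟨e6, e7⟩ := key _ _ hB1d e5
  have hB1 : B1 = 0 := eq_zero_of_C_dvd le_rfl h1' (map_mk_eq_zero.1 e7)
  obtain ⟨c', hc'⟩ := map_mk_eq_zero.1 e6
  obtain ⟨B', hB'⟩ := map_mk_eq_zero.1 e4
  refine ⟨?_, hB1⟩
  have e8 : B' = C π * a + s * b + s ^ 2 * c' := by
    refine mul_left_cancel₀ hCπ ?_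
    rw [hB1, mul_zero, add_zero, hc'] at habc
    rw [← hB', habc, pow_two, map_mul]
    ring
  have e9 := congrArg (Polynomial.map (AdjoinRoot.mk π)) e8
  simp only [Polynomial.map_add, Polynomial.map_mul, Polynomial.map_pow, hrπ, zero_mul,
    zero_add] at e9
  have hB'd : (B'.map (AdjoinRoot.mk π)).degree < (e : WithBot ℕ) := by
    refine lt_of_le_of_lt degree_map_le (lt_of_le_of_lt ?_ h0)
    rw [hB', degree_mul]
    refine le_add_of_nonneg_left (zero_le_degree_iff.2 hCπ)
  obtain ⟨_, e10⟩ := key _ (b.map (AdjoinRoot.mk π) + s.map (AdjoinRoot.mk π) *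
    c'.map (AdjoinRoot.mk π)) hB'd (by rw [e9]; ring)
  obtain ⟨B'', hB''⟩ := map_mk_eq_zero.1 e10
  refine eq_zero_of_C_dvd (M := π ^ 2) (n := 2 * π.natDegree) ?_ h0' ?_
  · rw [natDegree_pow]
  · rw [hB', hB'', pow_two, map_mul]
    exact ⟨B'', by rw [mul_assoc]⟩

/-- Reduction of the coefficients of a monic polynomial. -/
theorem exists_reduce {π : k[X]} (hπ : π.Monic) {p : k[X][X]} (hp : p.Monic) {e : ℕ}
    (he : p.natDegree = e) :
    ∃ (v : Fin e → {a : k[X] // a.degree < (π.natDegree : WithBot ℕ)}) (w : k[X][X]),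
      p = X ^ e + toP (fun i => (v i).1) + C π * w := by
  have hd : ∀ a : k[X], (a %ₘ π).degree < (π.natDegree : WithBot ℕ) := by
    intro a
    rw [← degree_eq_natDegree hπ.ne_zero]
    exact degree_modByMonic_lt a hπ
  refine ⟨fun i => ⟨p.coeff i %ₘ π, hd _⟩, toP (e := e) (fun i => p.coeff i /ₘ π), ?_⟩
  ext1 j
  rw [coeff_add, coeff_add, coeff_C_mul, toP_coeff, toP_coeff, coeff_X_pow]
  rcases Nat.lt_trichotomy j e with h | h | h
  · rw [if_neg (by omega), dif_pos h, dif_pos h, zero_add]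
    exact (modByMonic_add_div (p.coeff j) π).symm
  · subst h
    rw [if_pos rfl, dif_neg (lt_irrefl _), dif_neg (lt_irrefl _), add_zero, mul_zero, add_zero,
      ← he]
    exact hp.coeff_natDegree
  · rw [if_neg (by omega), dif_neg (by omega), dif_neg (by omega), add_zero, mul_zero, add_zero,
      coeff_eq_zero_of_natDegree_lt (by omega)]

/-- The monic polynomial with the vector of coefficients `v`. -/
noncomputable def sP {e : ℕ} (v : Fin e → k[X]) : k[X][X] := X ^ e + toP v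

theorem sP_monic {e : ℕ} (v : Fin e → k[X]) : (sP v).Monic := monic_X_pow_add (toP_degree_lt v)

theorem sP_natDegree {e : ℕ} (v : Fin e → k[X]) : (sP v).natDegree = e := by
  unfold sP
  rw [natDegree_add_eq_left_of_degree_lt, natDegree_X_pow]
  rw [degree_X_pow]
  exact toP_degree_lt v

theorem exists_inSq {g m : ℕ} {φ : k[X]} {f : k[X][X]} (hf : TopF g m φ f) {π : k[X]}
    (hπ : π.Monic) (hirr : Irreducible π) (hr : ¬ RegP π f) :
    ∃ e, 1 ≤ e ∧ e ≤ g ∧ ∃ v : Fin e → {a : k[X] // a.degree < (π.natDegree : WithBot ℕ)},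
      InSq π (sP (fun i => (v i).1)) f := by
  have : Fact (Irreducible π) := ⟨hirr⟩
  unfold RegP at hr
  push Not at hr
  obtain ⟨p, a, b, c, hp, hp1, habc⟩ := hr
  obtain ⟨v, w, hvw⟩ := exists_reduce hπ hp rfl
  refine ⟨p.natDegree, hp1, ?_, v, ?_⟩
  · have e1 := congrArg (Polynomial.map (AdjoinRoot.mk π)) habc
    have hrπ : (C π : k[X][X]).map (AdjoinRoot.mk π) = 0 := map_mk_eq_zero.2 dvd_rfl
    have hrπ2 : (C (π ^ 2) : k[X][X]).map (AdjoinRoot.mk π) = 0 :=
      map_mk_eq_zero.2 (by rw [pow_two, map_mul]; exact dvd_mul_right _ _)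
    simp only [Polynomial.map_add, Polynomial.map_mul, Polynomial.map_pow, hrπ, hrπ2, zero_mul,
      zero_add] at e1
    have h2 : (f.map (AdjoinRoot.mk π)).natDegree = 2 * g + 1 := by
      rw [hf.monic.natDegree_map, hf.deg]
    have h3 : f.map (AdjoinRoot.mk π) ≠ 0 := (hf.monic.map _).ne_zero
    have h4 := natDegree_le_of_dvd ⟨_, e1⟩ h3
    rw [natDegree_pow, hp.natDegree_map, h2] at h4
    omega
  · have h5 : p = sP (fun i => (v i).1) + C π * w := hvw
    refine ⟨a + w * b + w ^ 2 * c, b + 2 * w * c, c, ?_⟩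
    rw [habc, pow_two, map_mul]
    linear_combination (C π * b + c * (p + sP (fun i => (v i).1) + C π * w)) * h5

theorem toP_coeff_degree {d e : ℕ} {v : Fin e → k[X]} (hv : ∀ i, (v i).degree < (d : WithBot ℕ))
    (j : ℕ) : ((toP v).coeff j).degree < (d : WithBot ℕ) := by
  rw [toP_coeff]
  split_ifs with h
  · exact hv _
  · rw [degree_zero]
    exact WithBot.bot_lt_coe _

theorem sP_coeff_natDegree {d e : ℕ} {v : Fin e → k[X]} (hd : 1 ≤ d)
    (hv : ∀ i, (v i).degree < (d : WithBot ℕ)) (j : ℕ) :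
    ((sP v).coeff j).natDegree ≤ d - 1 := by
  unfold sP
  rw [coeff_add]
  refine (natDegree_add_le _ _).trans (max_le ?_ ?_)
  · rw [coeff_X_pow]
    split_ifs
    · simp
    · simp
  · have h1 := toP_coeff_degree hv j
    by_cases h0 : (toP v).coeff j = 0
    · rw [h0]
      simp
    · have := (natDegree_lt_iff_degree_lt h0).2 h1
      omega

/-- The translation `B₀ + s B₁`. -/
noncomputable def trS {e : ℕ} (v : Fin e → k[X]) (w : (Fin e → k[X]) × (Fin e → k[X])) : k[X][X] :=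
  toP w.2 + sP v * toP w.1

theorem trS_high {g e : ℕ} (he1 : 1 ≤ e) (he : e ≤ g) (v : Fin e → k[X])
    (w : (Fin e → k[X]) × (Fin e → k[X])) (j : ℕ) (hj : 2 * g ≤ j) : (trS v w).coeff j = 0 := by
  unfold trS
  rw [coeff_add, toP_coeff, dif_neg (by omega), zero_add]
  by_cases h0 : toP w.1 = 0
  · rw [h0, mul_zero, coeff_zero]
  · refine coeff_eq_zero_of_natDegree_lt ?_
    refine lt_of_le_of_lt natDegree_mul_le ?_
    rw [sP_natDegree]
    have h1 := (natDegree_lt_iff_degree_lt h0).2 (toP_degree_lt w.1)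
    omega

theorem trS_low {g m d e : ℕ} (hd1 : 1 ≤ d) (hd : d ≤ m) (v : Fin e → k[X])
    (hv : ∀ i, (v i).degree < (d : WithBot ℕ)) (w : (Fin e → k[X]) × (Fin e → k[X]))
    (hw1 : ∀ i, (w.1 i).degree < (d : WithBot ℕ))
    (hw2 : ∀ i, (w.2 i).degree < ((2 * d : ℕ) : WithBot ℕ)) (j : ℕ) (hj : j < 2 * g) :
    ((trS v w).coeff j).degree < ((2 * m * (2 * g + 1 - j) : ℕ) : WithBot ℕ) := by
  have hN : 2 * d < 2 * m * (2 * g + 1 - j) := by
    have h1 : 2 ≤ 2 * g + 1 - j := by omega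
    have h2 : 2 * m * 2 ≤ 2 * m * (2 * g + 1 - j) := Nat.mul_le_mul_left _ h1
    omega
  have h2d : ((2 * d : ℕ) : WithBot ℕ) < ((2 * m * (2 * g + 1 - j) : ℕ) : WithBot ℕ) := by
    exact_mod_cast hN
  unfold trS
  rw [coeff_add]
  refine lt_of_le_of_lt (degree_add_le _ _) (max_lt ?_ ?_)
  · exact lt_trans (toP_coeff_degree hw2 j) h2d
  · refine lt_of_le_of_lt (degree_le_of_natDegree_le (n := 2 * d) ?_) h2d
    rw [coeff_mul]
    refine natDegree_sum_le_of_forall_le _ _ fun x _ => ?_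
    refine natDegree_mul_le.trans ?_
    have h3 := sP_coeff_natDegree hd1 hv x.1
    have h4 : ((toP w.1).coeff x.2).natDegree ≤ d := natDegree_le_of_degree_le
      (toP_coeff_degree hw1 x.2).le
    omega

theorem card_small [Finite k] {g m e : ℕ} {φ : k[X]} (h1 : φ.coeff (2 * g + 1) = 1)
    (h0 : φ.coeff (2 * g) = 0) {π : k[X]} (hπ : Irreducible π) (hd : π.natDegree ≤ m)
    (he1 : 1 ≤ e) (he : e ≤ g) (v : Fin e → {a : k[X] // a.degree < (π.natDegree : WithBot ℕ)}) :
    Nat.card {f : k[X][X] // TopF g m φ f ∧ InSq π (sP (fun i => (v i).1)) f} *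
      ((Nat.card k ^ π.natDegree) ^ e * (Nat.card k ^ (2 * π.natDegree)) ^ e) ≤
      Nat.card {f : k[X][X] // TopF g m φ f} := by
  classical
  have hd1 : 1 ≤ π.natDegree := hπ.natDegree_pos
  have hfin := finite_topF (m := m) h1 h0
  set S : Finset k[X][X] := hfin.toFinset with hS
  have hmemS : ∀ f, f ∈ S ↔ TopF g m φ f := fun f => by
    rw [hS, Set.Finite.mem_toFinset]
    rfl
  set B : Finset k[X][X] := S.filter (fun f => InSq π (sP (fun i => (v i).1)) f) with hB
  have hBc : Nat.card {f : k[X][X] // TopF g m φ f ∧ InSq π (sP (fun i => (v i).1)) f} = B.card :=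
    Nat.subtype_card B fun f => by rw [hB, Finset.mem_filter, hmemS]
  rw [hBc, Nat.subtype_card S hmemS]
  have f1 := finite_degree_lt' (k := k) π.natDegree
  have f2 := finite_degree_lt' (k := k) (2 * π.natDegree)
  let W1 := Fin e → {a : k[X] // a.degree < (π.natDegree : WithBot ℕ)}
  let W2 := Fin e → {a : k[X] // a.degree < ((2 * π.natDegree : ℕ) : WithBot ℕ)}
  let _ : Fintype W1 := Fintype.ofFinite _
  let _ : Fintype W2 := Fintype.ofFinite _
  let τ : W1 × W2 → k[X][X] := fun w =>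
    trS (fun i => (v i).1) (fun i => (w.1 i).1, fun i => (w.2 i).1)
  have hW : (Finset.univ : Finset (W1 × W2)).card =
      (Nat.card k ^ π.natDegree) ^ e * (Nat.card k ^ (2 * π.natDegree)) ^ e := by
    rw [Finset.card_univ, ← Nat.card_eq_fintype_card, Nat.card_prod, card_vec, card_vec]
  have hdc := dc S B (Finset.filter_subset _ _) (Finset.univ : Finset (W1 × W2)) τ ?_ 1 ?_
  · rw [hW, mul_one] at hdc
    exact hdc
  · intro f hf w _
    rw [hmemS] at hf ⊢
    exact topF_sub hf (trS_high he1 he _ _)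
      (trS_low hd1 hd _ (fun i => (v i).2) _ (fun i => (w.1 i).2) (fun i => (w.2 i).2))
  · intro h _
    rw [Finset.card_le_one]
    intro w hw w' hw'
    rw [Finset.mem_filter, hB, Finset.mem_filter] at hw hw'
    have h2 := hw.2.2.sub hw'.2.2
    have h3 : h + τ w - (h + τ w') = toP ((fun i => (w.2 i).1) - fun i => (w'.2 i).1) +
        sP (fun i => (v i).1) * toP ((fun i => (w.1 i).1) - fun i => (w'.1 i).1) := by
      rw [toP_sub, toP_sub]
      show h + trS _ _ - (h + trS _ _) = _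
      unfold trS
      ring
    rw [h3] at h2
    obtain ⟨h4, h5⟩ := inSq_unique hπ (sP_monic _) (sP_natDegree _) (toP_degree_lt _)
      (toP_coeff_degree fun i => by
        rw [Pi.sub_apply]
        exact lt_of_le_of_lt (degree_sub_le _ _) (max_lt (w.1 i).2 (w'.1 i).2))
      (toP_degree_lt _)
      (toP_coeff_degree fun i => by
        rw [Pi.sub_apply]
        exact lt_of_le_of_lt (degree_sub_le _ _) (max_lt (w.2 i).2 (w'.2 i).2)) h2
    rw [toP_sub, sub_eq_zero] at h4 h5
    have h6 := toP_inj h4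
    have h7 := toP_inj h5
    refine Prod.ext ?_ ?_
    · funext i
      exact Subtype.ext (congrFun h7 i)
    · funext i
      exact Subtype.ext (congrFun h6 i)

end Pool.Agent.HYP.Sv
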