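import Pool.Agent.Lib.HYP.S.Small

/-!
MP_950c68_ag, genus `g`, block S (the sieve). The number of the polynomials which are not regular at a
small prime `π`: at most `(25 / 24) q ^ (- 2 deg π) N`.
-/

set_option autoImplicit false

open Polynomial

namespace Pool.Agent.HYP.Sv

open Pool.Agent.BSDP

variable {k : Type} [Field k]

theorem geom_sum {x : ℝ} (hx0 : 0 < x) (hx : x ≤ 1 / 25) (g : ℕ) :
    ∑ e ∈ Finset.Icc 1 g, x ^ e ≤ 25 / 24 * x := by
  have key : ∑ e ∈ Finset.Icc 1 g, x ^ e ≤ 25 / 24 * x - 25 / 24 * x ^ (g + 1) := by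
    induction g with
    | zero => simp
    | succ g ih =>
      rw [Finset.sum_Icc_succ_top (by omega)]
      have h1 : 0 < x ^ (g + 1) := by positivity
      have h2 : x ^ (g + 1 + 1) = x ^ (g + 1) * x := pow_succ _ _
      rw [h2]
      nlinarith
  have h1 : 0 < x ^ (g + 1) := by positivity
  linarith

theorem card_bad_pi [Finite k] {g m : ℕ} {φ : k[X]} (h1 : φ.coeff (2 * g + 1) = 1)
    (h0 : φ.coeff (2 * g) = 0) (hq : 5 ≤ Nat.card k) {π : k[X]} (hπ : π.Monic)
    (hirr : Irreducible π) (hd : π.natDegree ≤ m) :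
    (Nat.card {f : k[X][X] // TopF g m φ f ∧ ¬ RegP π f} : ℝ) ≤
      25 / 24 * (1 / (Nat.card k : ℝ) ^ π.natDegree) ^ 2 *
        Nat.card {f : k[X][X] // TopF g m φ f} := by
  classical
  have hfin := finite_topF (m := m) h1 h0
  set S : Finset k[X][X] := hfin.toFinset with hS
  have hmemS : ∀ f, f ∈ S ↔ TopF g m φ f := fun f => by
    rw [hS, Set.Finite.mem_toFinset]
    rfl
  have f1 := finite_degree_lt' (k := k) π.natDegree
  let _ : ∀ e, Fintype (Fin e → {a : k[X] // a.degree < (π.natDegree : WithBot ℕ)}) :=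
    fun e => Fintype.ofFinite _
  have hBc : Nat.card {f : k[X][X] // TopF g m φ f ∧ ¬ RegP π f} =
      (S.filter (fun f => ¬ RegP π f)).card :=
    Nat.subtype_card _ fun f => by rw [Finset.mem_filter, hmemS]
  have hNc : Nat.card {f : k[X][X] // TopF g m φ f} = S.card := Nat.subtype_card S hmemS
  have hcov : S.filter (fun f => ¬ RegP π f) ⊆ (Finset.Icc 1 g).biUnion (fun e =>
      (Finset.univ : Finset (Fin e → {a : k[X] // a.degree < (π.natDegree : WithBot ℕ)})).biUnion
        (fun v => S.filter (fun f => InSq π (sP (fun i => (v i).1)) f))) := by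
    intro f hf
    rw [Finset.mem_filter, hmemS] at hf
    obtain ⟨e, he1, he, v, hv⟩ := exists_inSq hf.1 hπ hirr hf.2
    rw [Finset.mem_biUnion]
    refine ⟨e, Finset.mem_Icc.2 ⟨he1, he⟩, ?_⟩
    rw [Finset.mem_biUnion]
    exact ⟨v, Finset.mem_univ _, Finset.mem_filter.2 ⟨(hmemS f).2 hf.1, hv⟩⟩
  set Q : ℝ := (Nat.card k : ℝ) ^ π.natDegree with hQ
  have hd1 : 1 ≤ π.natDegree := hirr.natDegree_pos
  have hq5 : (5 : ℝ) ≤ (Nat.card k : ℝ) := by exact_mod_cast hq
  have hQ5 : 5 ≤ Q := hq5.trans (le_self_pow₀ (by linarith) (by omega))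
  have hQ0 : 0 < Q := by linarith
  have hone : ∀ e ∈ Finset.Icc 1 g,
      (((Finset.univ : Finset (Fin e → {a : k[X] // a.degree < (π.natDegree : WithBot ℕ)})).biUnion
        (fun v => S.filter (fun f => InSq π (sP (fun i => (v i).1)) f))).card : ℝ) ≤
      ((1 / Q) ^ 2) ^ e * S.card := by
    intro e he
    rw [Finset.mem_Icc] at he
    have h2 : (((Finset.univ : Finset (Fin e → {a : k[X] //
        a.degree < (π.natDegree : WithBot ℕ)})).biUnion
        (fun v => S.filter (fun f => InSq π (sP (fun i => (v i).1)) f))).card : ℝ) ≤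
        ∑ v : Fin e → {a : k[X] // a.degree < (π.natDegree : WithBot ℕ)},
          ((S.filter (fun f => InSq π (sP (fun i => (v i).1)) f)).card : ℝ) := by
      exact_mod_cast Finset.card_biUnion_le
    refine h2.trans ?_
    have h3 : ∀ v : Fin e → {a : k[X] // a.degree < (π.natDegree : WithBot ℕ)},
        ((S.filter (fun f => InSq π (sP (fun i => (v i).1)) f)).card : ℝ) ≤
          S.card / (Q ^ e * (Q ^ 2) ^ e) := by
      intro v
      rw [le_div_iff₀ (by positivity)]
      have h4 := card_small h1 h0 hirr hd he.1 he.2 v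
      rw [hNc, Nat.subtype_card (S.filter (fun f => InSq π (sP (fun i => (v i).1)) f))
        (fun f => by rw [Finset.mem_filter, hmemS])] at h4
      have h5 : Q ^ 2 = (Nat.card k : ℝ) ^ (2 * π.natDegree) := by
        rw [hQ, ← pow_mul, mul_comm]
      rw [h5, hQ]
      exact_mod_cast h4
    refine (Finset.sum_le_sum fun v _ => h3 v).trans ?_
    rw [Finset.sum_const, Finset.card_univ, ← Nat.card_eq_fintype_card, card_vec, nsmul_eq_mul]
    push_cast
    rw [← hQ]
    apply le_of_eq
    rw [one_div, inv_pow, inv_pow]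
    field_simp
  have h6 : ((S.filter (fun f => ¬ RegP π f)).card : ℝ) ≤
      ∑ e ∈ Finset.Icc 1 g, ((1 / Q) ^ 2) ^ e * (S.card : ℝ) := by
    refine le_trans ?_ (Finset.sum_le_sum hone)
    exact_mod_cast (Finset.card_le_card hcov).trans Finset.card_biUnion_le
  rw [hBc, hNc]
  refine h6.trans ?_
  rw [← Finset.sum_mul]
  refine mul_le_mul_of_nonneg_right (geom_sum (by positivity) ?_ g) (Nat.cast_nonneg _)
  have h7 : 1 / Q ≤ 1 / 5 := one_div_le_one_div_of_le (by norm_num) hQ5
  have h8 : 0 < 1 / Q := by positivity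
  nlinarith

end Pool.Agent.HYP.Sv
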